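import Mathlib

/-!
MP_6c3374_co: monochromatic convex `p`-gons in two-coloured point sets, `log g(p) = O(p² log p)`.
-/

set_option autoImplicit false

namespace Pool.Agent.Results.MP_6c3374_co.QuasiQuadratic

/-- No three points of `P` are collinear. -/
def GenPos (P : Finset (ℝ × ℝ)) : Prop :=
  ∀ a ∈ P, ∀ b ∈ P, ∀ c ∈ P, a ≠ b → a ≠ c → b ≠ c → ¬ Collinear ℝ ({a, b, c} : Set (ℝ × ℝ))

/-- Every point of `Q` is a vertex of the convex hull of `Q`. -/
def ConvexPos (Q : Finset (ℝ × ℝ)) : Prop :=
  ∀ x ∈ Q, x ∉ convexHull ℝ ((Q : Set (ℝ × ℝ)) \ {x})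

/-- Every `n` points in general position, with the pairs coloured by two colours, contain `p`
points in convex position all of whose pairs have the same colour. -/
def Good (p n : ℕ) : Prop :=
  ∀ P : Finset (ℝ × ℝ), P.card = n → GenPos P → ∀ χ : Sym2 (ℝ × ℝ) → Bool,
    ∃ Q ⊆ P, Q.card = p ∧ ConvexPos Q ∧ ∃ c : Bool, ∀ x ∈ Q, ∀ y ∈ Q, x ≠ y → χ s(x, y) = c

/-- `g p` is the least `n` with `Good p n`. -/
noncomputable def g (p : ℕ) : ℕ := sInf {n | Good p n}

/-! ### Geometry -/

/-- twice the signed area of the triangle `a b c` -/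
def ori (a b c : ℝ × ℝ) : ℝ := (b.1 - a.1) * (c.2 - a.2) - (b.2 - a.2) * (c.1 - a.1)

/-- the sweeping functional -/
def X (t : ℝ) (a : ℝ × ℝ) : ℝ := a.1 + t * a.2

lemma ori_X (t : ℝ) (a b c : ℝ × ℝ) :
    ori a b c = (X t b - X t a) * (c.2 - a.2) - (b.2 - a.2) * (X t c - X t a) := by
  unfold ori X; ring

/-- transitivity: first conclusion -/
lemma trans1 {t σ : ℝ} {a b c d : ℝ × ℝ} (h1 : X t a < X t b) (h2 : X t b < X t c)
    (h3 : X t c < X t d) (e1 : 0 < σ * ori a b c) (e2 : 0 < σ * ori b c d) :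
    0 < σ * ori a b d := by
  rw [ori_X t] at e1 e2 ⊢
  set A := X t a; set B := X t b; set C := X t c; set D := X t d
  have key : (σ * ((B - A) * (d.2 - a.2) - (b.2 - a.2) * (D - A))) * (C - B) =
      (σ * ((B - A) * (c.2 - a.2) - (b.2 - a.2) * (C - A))) * (D - B) +
      (σ * ((C - B) * (d.2 - b.2) - (c.2 - b.2) * (D - B))) * (B - A) := by ring
  have hpos : 0 < (σ * ((B - A) * (d.2 - a.2) - (b.2 - a.2) * (D - A))) * (C - B) := by
    rw [key]
    have p1 := mul_pos e1 (show 0 < D - B by linarith)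
    have p2 := mul_pos e2 (show 0 < B - A by linarith)
    linarith
  exact (mul_pos_iff_of_pos_right (show 0 < C - B by linarith)).1 hpos

/-- transitivity: second conclusion -/
lemma trans2 {t σ : ℝ} {a b c d : ℝ × ℝ} (h1 : X t a < X t b) (h2 : X t b < X t c)
    (h3 : X t c < X t d) (e1 : 0 < σ * ori a b c) (e2 : 0 < σ * ori b c d) :
    0 < σ * ori a c d := by
  rw [ori_X t] at e1 e2 ⊢
  set A := X t a; set B := X t b; set C := X t c; set D := X t d
  have key : (σ * ((C - A) * (d.2 - a.2) - (c.2 - a.2) * (D - A))) * (C - B) =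
      (σ * ((B - A) * (c.2 - a.2) - (b.2 - a.2) * (C - A))) * (D - C) +
      (σ * ((C - B) * (d.2 - b.2) - (c.2 - b.2) * (D - B))) * (C - A) := by ring
  have hpos : 0 < (σ * ((C - A) * (d.2 - a.2) - (c.2 - a.2) * (D - A))) * (C - B) := by
    rw [key]
    have p1 := mul_pos e1 (show 0 < D - C by linarith)
    have p2 := mul_pos e2 (show 0 < C - A by linarith)
    linarith
  exact (mul_pos_iff_of_pos_right (show 0 < C - B by linarith)).1 hpos

/-- all increasing triples of `Q` have orientation `σ` -/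
def Chain (t σ : ℝ) (Q : Finset (ℝ × ℝ)) : Prop :=
  ∀ a ∈ Q, ∀ b ∈ Q, ∀ c ∈ Q, X t a < X t b → X t b < X t c → 0 < σ * ori a b c

lemma ori_rot (a b c : ℝ × ℝ) : ori b c a = ori a b c := by unfold ori; ring

lemma ori_self (a b : ℝ × ℝ) : ori a b a = 0 := by unfold ori; ring

lemma ori_self' (a b : ℝ × ℝ) : ori a b b = 0 := by unfold ori; ring

lemma not_mem_hull {Q : Finset (ℝ × ℝ)} {q : ℝ × ℝ} (α β γ : ℝ)
    (h0 : α * q.1 + β * q.2 = γ) (h : ∀ x ∈ Q, x ≠ q → γ < α * x.1 + β * x.2) :
    q ∉ convexHull ℝ ((Q : Set (ℝ × ℝ)) \ {q}) := by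
  intro hq
  have hconv : Convex ℝ {x : ℝ × ℝ | γ < α * x.1 + β * x.2} := by
    intro x hx y hy a b ha hb hab
    simp only [Set.mem_ofPred_eq, Prod.fst_add, Prod.smul_fst, smul_eq_mul, Prod.snd_add,
      Prod.smul_snd] at hx hy ⊢
    rcases ha.eq_or_lt with rfl | ha
    · have : b = 1 := by linarith
      subst this
      linarith
    · have e1 : a * γ < a * (α * x.1 + β * x.2) := mul_lt_mul_of_pos_left hx ha
      have e2 : b * γ ≤ b * (α * y.1 + β * y.2) := mul_le_mul_of_nonneg_left hy.le hb
      have e3 : γ = a * γ + b * γ := by rw [← add_mul, hab, one_mul]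
      nlinarith
  have hsub : ((Q : Set (ℝ × ℝ)) \ {q}) ⊆ {x : ℝ × ℝ | γ < α * x.1 + β * x.2} := by
    intro x hx
    exact h x (by simpa using hx.1) (by simpa using hx.2)
  have := convexHull_min hsub hconv hq
  simp only [Set.mem_ofPred_eq] at this
  linarith

lemma convexPos_of_chain {t σ : ℝ} {Q : Finset (ℝ × ℝ)}
    (hinj : ∀ a ∈ Q, ∀ b ∈ Q, X t a = X t b → a = b) (hQ : Chain t σ Q) : ConvexPos Q := by
  classical
  intro q hq
  by_cases hl : ∃ u ∈ Q, X t u < X t q
  · by_cases hr : ∃ w ∈ Q, X t q < X t w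
    · -- immediate neighbours
      obtain ⟨u, hu, humax⟩ := Finset.exists_max_image (Q.filter fun u => X t u < X t q) (X t)
        (by obtain ⟨u, hu, h⟩ := hl; exact ⟨u, Finset.mem_filter.2 ⟨hu, h⟩⟩)
      obtain ⟨w, hw, hwmin⟩ := Finset.exists_min_image (Q.filter fun u => X t q < X t u) (X t)
        (by obtain ⟨u, hu, h⟩ := hr; exact ⟨u, Finset.mem_filter.2 ⟨hu, h⟩⟩)
      rw [Finset.mem_filter] at hu hw
      have key : ∀ x ∈ Q, x ≠ q → 0 < σ * ori u q x + σ * ori q w x := by
        intro x hx hxq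
        rcases lt_trichotomy (X t x) (X t q) with h | h | h
        · have hxu := humax x (Finset.mem_filter.2 ⟨hx, h⟩)
          have e2 : 0 < σ * ori q w x := by
            rw [ori_rot x q w]
            exact hQ x hx q hq w hw.1 h hw.2
          rcases hxu.eq_or_lt with e | e
          · have := hinj x hx u hu.1 e
            subst this
            rw [ori_self]
            linarith
          · have e1 : 0 < σ * ori u q x := by
              rw [ori_rot x u q]
              exact hQ x hx u hu.1 q hq e hu.2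
            linarith
        · exact absurd (hinj x hx q hq h) hxq
        · have hxw := hwmin x (Finset.mem_filter.2 ⟨hx, h⟩)
          have e1 : 0 < σ * ori u q x := hQ u hu.1 q hq x hx hu.2 h
          rcases hxw.eq_or_lt with e | e
          · have := hinj w hw.1 x hx e
            subst this
            rw [ori_self']
            linarith
          · have e2 : 0 < σ * ori q w x := hQ q hq w hw.1 x hx hw.2 e
            linarith
      -- turn into a linear functional
      have hlin : ∀ x : ℝ × ℝ, σ * ori u q x + σ * ori q w x =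
          (σ * (-(q.2 - u.2) - (w.2 - q.2))) * x.1 + (σ * ((q.1 - u.1) + (w.1 - q.1))) * x.2 -
          (σ * ((q.1 - u.1) * u.2 - (q.2 - u.2) * u.1) +
            σ * ((w.1 - q.1) * q.2 - (w.2 - q.2) * q.1)) := by
        intro x; unfold ori; ring
      apply not_mem_hull (σ * (-(q.2 - u.2) - (w.2 - q.2))) (σ * ((q.1 - u.1) + (w.1 - q.1)))
        (σ * ((q.1 - u.1) * u.2 - (q.2 - u.2) * u.1) +
            σ * ((w.1 - q.1) * q.2 - (w.2 - q.2) * q.1))
      · have h1 := hlin q
        rw [ori_self', ori_self] at h1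
        linarith
      · intro x hx hxq
        have h1 := key x hx hxq
        rw [hlin x] at h1
        linarith
    · push Not at hr
      apply not_mem_hull (-1) (-t) (-(X t q))
      · unfold X; ring
      · intro x hx hxq
        have h1 := hr x hx
        rcases h1.eq_or_lt with e | e
        · exact absurd (hinj x hx q hq e) hxq
        · unfold X at *; linarith
  · push Not at hl
    apply not_mem_hull 1 t (X t q)
    · unfold X; ring
    · intro x hx hxq
      have h1 := hl x hx
      rcases h1.eq_or_lt with e | e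
      · exact absurd (hinj q hq x hx e).symm hxq
      · unfold X at *; linarith

lemma ori_ne_zero {a b c : ℝ × ℝ} (hab : a ≠ b)
    (h : ¬ Collinear ℝ ({a, b, c} : Set (ℝ × ℝ))) : ori a b c ≠ 0 := by
  intro h0
  apply h
  rw [collinear_iff_of_mem (p₀ := a) (by simp)]
  refine ⟨b - a, ?_⟩
  have key : ∃ r : ℝ, c = r • (b - a) + a := by
    unfold ori at h0
    by_cases h1 : b.1 - a.1 = 0
    · have h2 : b.2 - a.2 ≠ 0 := by
        intro h2
        exact hab (Prod.ext (by linarith) (by linarith))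
      rw [h1, zero_mul, zero_sub, neg_eq_zero] at h0
      have h3 := (mul_eq_zero.1 h0).resolve_left h2
      refine ⟨(c.2 - a.2) / (b.2 - a.2), Prod.ext ?_ ?_⟩
      · simp only [Prod.fst_add, Prod.smul_fst, Prod.fst_sub, smul_eq_mul, h1, mul_zero]
        linarith
      · simp only [Prod.snd_add, Prod.smul_snd, Prod.snd_sub, smul_eq_mul]
        rw [div_mul_cancel₀ _ h2]; ring
    · refine ⟨(c.1 - a.1) / (b.1 - a.1), Prod.ext ?_ ?_⟩
      · simp only [Prod.fst_add, Prod.smul_fst, Prod.fst_sub, smul_eq_mul]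
        rw [div_mul_cancel₀ _ h1]; ring
      · simp only [Prod.snd_add, Prod.smul_snd, Prod.snd_sub, smul_eq_mul]
        field_simp
        linarith
  intro p hp
  simp only [Set.mem_insert_iff, Set.mem_singleton_iff] at hp
  rcases hp with rfl | rfl | rfl
  · exact ⟨0, by simp⟩
  · exact ⟨1, by simp⟩
  · obtain ⟨r, hr⟩ := key
    exact ⟨r, by simpa [vadd_eq_add] using hr⟩

/-- a direction in which all points have different abscissae -/
lemma exists_dir (P : Finset (ℝ × ℝ)) :
    ∃ t : ℝ, ∀ a ∈ P, ∀ b ∈ P, X t a = X t b → a = b := by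
  classical
  -- bad values of t
  let bad : Finset ℝ := (P ×ˢ P).image fun z => (z.1.1 - z.2.1) / (z.2.2 - z.1.2)
  obtain ⟨t, ht⟩ := Infinite.exists_notMem_finset bad
  refine ⟨t, fun a ha b hb hab => ?_⟩
  by_contra hne
  unfold X at hab
  by_cases h2 : b.2 - a.2 = 0
  · apply hne
    have h3 : a.2 = b.2 := by linarith
    rw [h3] at hab
    exact Prod.ext (by linarith) h3
  · apply ht
    refine Finset.mem_image.2 ⟨(a, b), Finset.mem_product.2 ⟨ha, hb⟩, ?_⟩
    simp only
    rw [div_eq_iff h2]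
    linarith

/-! ### The nested selection -/

section Core

variable (t : ℝ) (χ : (ℝ × ℝ) → (ℝ × ℝ) → Bool)

/-- sign of the two kinds of chains -/
def sg (τ : Bool) : ℝ := if τ then 1 else -1

/-- length label of a selected point -/
abbrev Lab := (ℝ × ℝ) → Bool → ℕ

/-- The selected points `V c` are to the left of `S`, have colour `c` with all of `S`, and every
`v ∈ V c` with label `ℓ v τ` is, for every `s ∈ S`, the last but one point of a chain of kind `τ`
with last point `s` and `ℓ v τ + 1` points. -/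
structure St (V : Bool → Finset (ℝ × ℝ)) (ℓ : Lab) (S : Finset (ℝ × ℝ)) : Prop where
  left : ∀ c, ∀ v ∈ V c, ∀ s ∈ S, X t v < X t s
  col : ∀ c, ∀ v ∈ V c, ∀ s ∈ S, χ v s = c
  colV : ∀ c, ∀ u ∈ V c, ∀ v ∈ V c, X t u < X t v → χ u v = c
  wit : ∀ c, ∀ v ∈ V c, ∀ τ, ∀ s ∈ S, ∃ C ⊆ V c, C.card = ℓ v τ ∧ v ∈ C ∧
    (∀ a ∈ C, X t a ≤ X t v) ∧ Chain t (sg τ) (insert s C)
  inj : ∀ c, ∀ u ∈ V c, ∀ v ∈ V c, (∀ τ, ℓ u τ = ℓ v τ) → u = v

/-- a monochromatic chain with `p` points -/
def Found (P : Finset (ℝ × ℝ)) (p : ℕ) : Prop :=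
  ∃ Q ⊆ P, Q.card = p ∧ ∃ τ c, Chain t (sg τ) Q ∧ ∀ x ∈ Q, ∀ y ∈ Q, X t x < X t y → χ x y = c

lemma Chain.mono {t σ : ℝ} {Q Q' : Finset (ℝ × ℝ)} (h : Chain t σ Q) (hs : Q' ⊆ Q) :
    Chain t σ Q' := fun a ha b hb c hc => h a (hs ha) b (hs hb) c (hs hc)

/-- extending a chain -/
lemma Chain.extend {t σ : ℝ} {C : Finset (ℝ × ℝ)} {u v w : ℝ × ℝ}
    (hinj : ∀ a ∈ C, X t a = X t u → a = u)
    (hC : Chain t σ (insert v C)) (hu : u ∈ C) (hmax : ∀ a ∈ C, X t a ≤ X t u)
    (huv : X t u < X t v) (hvw : X t v < X t w) (ho : 0 < σ * ori u v w) :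
    Chain t σ (insert w (insert v C)) := by
  have hCv : ∀ a ∈ C, X t a < X t v := fun a ha => (hmax a ha).trans_lt huv
  have hCw : ∀ a ∈ C, X t a < X t w := fun a ha => (hCv a ha).trans hvw
  -- triples (a, v, w)
  have h1 : ∀ a ∈ C, 0 < σ * ori a v w := by
    intro a ha
    rcases (hmax a ha).eq_or_lt with e | e
    · rw [hinj a ha e]; exact ho
    · exact trans2 (t := t) e huv hvw
        (hC a (by simp [ha]) u (by simp [hu]) v (by simp) e huv) ho
  have h2 : ∀ a ∈ C, X t a < X t u → 0 < σ * ori a u w := by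
    intro a ha e
    exact trans1 (t := t) e huv hvw
        (hC a (by simp [ha]) u (by simp [hu]) v (by simp) e huv) ho
  have h3 : ∀ a ∈ C, ∀ b ∈ C, X t a < X t b → 0 < σ * ori a b w := by
    intro a ha b hb hab
    rcases (hmax b hb).eq_or_lt with e | e
    · have := hinj b hb e
      subst this
      exact h2 a ha hab
    · exact trans1 (t := t) hab e (huv.trans hvw)
        (hC a (by simp [ha]) b (by simp [hb]) u (by simp [hu]) hab e) (h2 b hb e)
  intro a ha b hb c hc hab hbc
  rw [Finset.mem_insert, Finset.mem_insert] at ha hb hc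
  rcases hc with rfl | hc
  · -- c = w
    rcases hb with rfl | rfl | hb
    · exact absurd hbc (lt_irrefl _)
    · rcases ha with rfl | rfl | ha
      · exact absurd (hab.trans hbc) (lt_irrefl _)
      · exact absurd hab (lt_irrefl _)
      · exact h1 a ha
    · rcases ha with rfl | rfl | ha
      · exact absurd (hab.trans hbc) (lt_irrefl _)
      · exact absurd (hab.trans (hCv b hb)) (lt_irrefl _)
      · exact h3 a ha b hb hab
  · have hcw : X t c < X t w := by
      rcases hc with rfl | hc
      · exact hvw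
      · exact hCw c hc
    have hbw : b ≠ w := by rintro rfl; exact lt_irrefl _ (hbc.trans hcw)
    have haw : a ≠ w := by rintro rfl; exact lt_irrefl _ ((hab.trans hbc).trans hcw)
    exact hC a (by simpa [haw] using ha) b (by simpa [hbw] using hb) c (by simpa using hc) hab hbc

/-- a label `≥ p - 1` gives a monochromatic chain with `p` points -/
lemma found_of_label {V : Bool → Finset (ℝ × ℝ)} {ℓ : Lab} {S P : Finset (ℝ × ℝ)}
    (h : St t χ V ℓ S) (hP : S ⊆ P) (hV : ∀ c, V c ⊆ P) {p : ℕ} (hp : 1 ≤ p) {c : Bool}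
    {v : ℝ × ℝ} (hv : v ∈ V c) {τ : Bool} (hl : p - 1 ≤ ℓ v τ) {s : ℝ × ℝ} (hs : s ∈ S) :
    Found t χ P p := by
  classical
  obtain ⟨C, hCV, hcard, -, -, hch⟩ := h.wit c v hv τ s hs
  obtain ⟨D, hDC, hD⟩ := Finset.exists_subset_card_eq (s := C) (n := p - 1) (by omega)
  have hsD : s ∉ D := fun hsD => lt_irrefl _ (h.left c s (hCV (hDC hsD)) s hs)
  refine ⟨insert s D, ?_, ?_, τ, c, hch.mono (Finset.insert_subset_insert _ hDC), ?_⟩
  · exact Finset.insert_subset (hP hs) ((hDC.trans hCV).trans (hV c))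
  · rw [Finset.card_insert_of_notMem hsD, hD]; omega
  · intro x hx y hy hxy
    rw [Finset.mem_insert] at hx hy
    rcases hy with rfl | hy
    · rcases hx with rfl | hx
      · exact absurd hxy (lt_irrefl _)
      · exact h.col c x (hCV (hDC hx)) y hs
    · rcases hx with rfl | hx
      · exact absurd (hxy.trans (h.left c y (hCV (hDC hy)) x hs)) (lt_irrefl _)
      · exact h.colV c x (hCV (hDC hx)) y (hCV (hDC hy)) hxy

/-- the label of `v` seen from `w` -/
noncomputable def nl (Vc : Finset (ℝ × ℝ)) (ℓ : Lab) (v w : ℝ × ℝ) (τ : Bool) : ℕ := by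
  classical
  exact ((Vc.filter fun u => 0 < sg τ * ori u v w).sup fun u => ℓ u τ) + 1

lemma sg_cases {x : ℝ} (hx : x ≠ 0) : ∃ τ, 0 < sg τ * x := by
  rcases lt_or_gt_of_ne hx with h | h
  · exact ⟨false, by simp [sg]; linarith⟩
  · exact ⟨true, by simp [sg]; linarith⟩

open Classical in
lemma step {P : Finset (ℝ × ℝ)} (hinj : ∀ a ∈ P, ∀ b ∈ P, X t a = X t b → a = b)
    (hne : ∀ a ∈ P, ∀ b ∈ P, ∀ c ∈ P, X t a < X t b → X t b < X t c → ori a b c ≠ 0)
    {V : Bool → Finset (ℝ × ℝ)} {ℓ : Lab} {S : Finset (ℝ × ℝ)}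
    (h : St t χ V ℓ S) (hP : S ⊆ P) (hV : ∀ c, V c ⊆ P) {v : ℝ × ℝ} (hv : v ∈ S)
    (hmin : ∀ w ∈ S, X t v ≤ X t w) {c : Bool} {L : Bool → ℕ} {S' : Finset (ℝ × ℝ)}
    (hS' : S' ⊆ S) (hvS : v ∉ S') (hne' : S'.Nonempty) (hc : ∀ w ∈ S', χ v w = c)
    (hL : ∀ w ∈ S', ∀ τ, nl (V c) ℓ v w τ = L τ) :
    St t χ (Function.update V c (insert v (V c))) (Function.update ℓ v L) S' := by
  have hvV : ∀ c', v ∉ V c' := fun c' hv' => lt_irrefl _ (h.left c' v hv' v hv)
  have hlt : ∀ w ∈ S', X t v < X t w := by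
    intro w hw
    refine lt_of_le_of_ne (hmin w (hS' hw)) fun e => hvS ?_
    rw [hinj v (hP hv) w (hP (hS' hw)) e]; exact hw
  have hold : ∀ c', ∀ u ∈ V c', Function.update ℓ v L u = ℓ u := by
    intro c' u hu
    rw [Function.update_of_ne]
    rintro rfl
    exact hvV c' hu
  have hVc : ∀ c', ∀ u, u ∈ Function.update V c (insert v (V c)) c' →
      (c' = c ∧ u = v) ∨ u ∈ V c' := by
    intro c' u hu
    by_cases e : c' = c
    · subst e
      rw [Function.update_self, Finset.mem_insert] at hu
      rcases hu with hu | hu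
      · exact Or.inl ⟨rfl, hu⟩
      · exact Or.inr hu
    · rw [Function.update_of_ne e] at hu
      exact Or.inr hu
  have hsub : ∀ c', V c' ⊆ Function.update V c (insert v (V c)) c' := by
    intro c'
    by_cases e : c' = c
    · subst e
      rw [Function.update_self]
      exact Finset.subset_insert _ _
    · rw [Function.update_of_ne e]
  refine ⟨?_, ?_, ?_, ?_, ?_⟩
  · intro c' u hu s hs
    rcases hVc c' u hu with ⟨-, rfl⟩ | hu
    · exact hlt s hs
    · exact h.left c' u hu s (hS' hs)
  · intro c' u hu s hs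
    rcases hVc c' u hu with ⟨rfl, rfl⟩ | hu
    · exact hc s hs
    · exact h.col c' u hu s (hS' hs)
  · intro c' u hu u' hu' huu
    rcases hVc c' u hu with ⟨rfl, rfl⟩ | hu2
    · rcases hVc c' u' hu' with ⟨-, rfl⟩ | hu2'
      · exact absurd huu (lt_irrefl _)
      · exact absurd (huu.trans (h.left c' u' hu2' u hv)) (lt_irrefl _)
    · rcases hVc c' u' hu' with ⟨-, rfl⟩ | hu2'
      · exact h.col c' u hu2 u' hv
      · exact h.colV c' u hu2 u' hu2' huu
  · intro c' u hu τ s hs
    rcases hVc c' u hu with ⟨rfl, rfl⟩ | hu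
    · rw [Function.update_self, Function.update_self]
      rw [← hL s hs τ]
      unfold nl
      by_cases hF : ((V c').filter fun x => 0 < sg τ * ori x u s).Nonempty
      · obtain ⟨x, hx, hx'⟩ := Finset.exists_mem_eq_sup _ hF (fun x => ℓ x τ)
        rw [Finset.mem_filter] at hx
        obtain ⟨C, hCV, hcard, hxC, hmax, hch⟩ := h.wit c' x hx.1 τ u hv
        have huC : u ∉ C := fun hh => hvV c' (hCV hh)
        have hxu := h.left c' x hx.1 u hv
        refine ⟨insert u C, ?_, ?_, Finset.mem_insert_self _ _, ?_, ?_⟩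
        · exact Finset.insert_subset_insert _ hCV
        · rw [Finset.card_insert_of_notMem huC, hcard]
          rw [hx']
        · intro a ha
          rcases Finset.mem_insert.1 ha with rfl | ha
          · exact le_rfl
          · exact ((hmax a ha).trans_lt hxu).le
        · exact hch.extend (fun a ha e => hinj a (hV c' (hCV ha)) x (hV c' hx.1) e) hxC hmax hxu
            (hlt s hs) hx.2
      · rw [Finset.not_nonempty_iff_eq_empty] at hF
        simp only [hF, Finset.sup_empty]
        refine ⟨{u}, ?_, by simp, by simp, by simp, ?_⟩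
        · simp
        · have hus := hlt s hs
          intro a ha b hb d hd hab hbd
          simp only [Finset.mem_insert, Finset.mem_singleton] at ha hb hd
          rcases ha with rfl | rfl <;> rcases hb with rfl | rfl <;> rcases hd with rfl | rfl <;>
            (exfalso; linarith)
    · obtain ⟨C, hCV, hcard, huC, hmax, hch⟩ := h.wit c' u hu τ s (hS' hs)
      exact ⟨C, hCV.trans (hsub c'), by rw [hold c' u hu]; exact hcard, huC, hmax, hch⟩
  · -- injectivity
    have hnew : ∀ u ∈ V c, ¬ ∀ τ, L τ = ℓ u τ := by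
      intro u hu hall
      obtain ⟨w, hw⟩ := hne'
      have huv := h.left c u hu v hv
      obtain ⟨τ, hτ⟩ := sg_cases (hne u (hV c hu) v (hP hv) w (hP (hS' hw)) huv (hlt w hw))
      have h1 : ℓ u τ ≤ ((V c).filter fun u => 0 < sg τ * ori u v w).sup fun u => ℓ u τ :=
        Finset.le_sup (f := fun u => ℓ u τ) (Finset.mem_filter.2 ⟨hu, hτ⟩)
      have h2 := hL w hw τ
      unfold nl at h2
      have h3 := hall τ
      omega
    intro c' u hu u' hu' hall
    rcases hVc c' u hu with ⟨rfl, rfl⟩ | hu2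
    · rcases hVc c' u' hu' with ⟨-, rfl⟩ | hu2'
      · rfl
      · exfalso
        apply hnew u' hu2'
        intro τ
        have := hall τ
        rwa [Function.update_self, hold c' u' hu2'] at this
    · rcases hVc c' u' hu' with ⟨rfl, rfl⟩ | hu2'
      · exfalso
        apply hnew u hu2
        intro τ
        have := hall τ
        rw [Function.update_self, hold c' u hu2] at this
        exact this.symm
      · apply h.inj c' u hu2 u' hu2'
        intro τ
        have := hall τ
        rwa [hold c' u hu2, hold c' u' hu2'] at this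

open Classical in
theorem main {P : Finset (ℝ × ℝ)} (hinj : ∀ a ∈ P, ∀ b ∈ P, X t a = X t b → a = b)
    (hne : ∀ a ∈ P, ∀ b ∈ P, ∀ c ∈ P, X t a < X t b → X t b < X t c → ori a b c ≠ 0)
    {p : ℕ} (hp : 3 ≤ p) : ∀ r : ℕ, ∀ (V : Bool → Finset (ℝ × ℝ)) (ℓ : Lab) (S : Finset (ℝ × ℝ)),
    St t χ V ℓ S → S ⊆ P → (∀ c, V c ⊆ P) →
    (∀ c, ∀ v ∈ V c, ∀ τ, 1 ≤ ℓ v τ ∧ ℓ v τ ≤ p - 2) →
    2 * (p - 2) ^ 2 + 1 ≤ (V true).card + (V false).card + r →
    (2 * (p - 2) ^ 2 + 1) ^ r ≤ S.card → Found t χ P p := by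
  intro r
  induction r with
  | zero =>
    intro V ℓ S h hS hV hlab hcard _
    exfalso
    have hb : ∀ c, (V c).card ≤ (p - 2) ^ 2 := by
      intro c
      have h1 : (V c).card ≤ ((Finset.Icc 1 (p - 2)) ×ˢ (Finset.Icc 1 (p - 2))).card := by
        apply Finset.card_le_card_of_injOn (fun v => (ℓ v true, ℓ v false))
        · intro v hv
          have h2 := hlab c v hv true
          have h3 := hlab c v hv false
          simp only [Finset.coe_product, Set.mem_prod, Finset.coe_Icc, Set.mem_Icc]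
          exact ⟨h2, h3⟩
        · intro u hu v hv huv
          simp only [Prod.mk.injEq] at huv
          apply h.inj c u hu v hv
          intro τ
          cases τ
          · exact huv.2
          · exact huv.1
      rw [Finset.card_product, Nat.card_Icc] at h1
      calc _ ≤ _ := h1
        _ = (p - 2) ^ 2 := by rw [pow_two]; simp
    have h1 := hb true
    have h2 := hb false
    omega
  | succ r ih =>
    intro V ℓ S h hS hV hlab hcard hScard
    set M := 2 * (p - 2) ^ 2 with hM
    have hM1 : 1 ≤ M := by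
      have : 1 ≤ (p - 2) ^ 2 := Nat.one_le_pow _ _ (by omega)
      omega
    have hpow : 1 ≤ (M + 1) ^ r := Nat.one_le_pow _ _ (by omega)
    have hSne : S.Nonempty := by
      rw [← Finset.card_pos]
      exact lt_of_lt_of_le (Nat.pow_pos (by omega)) hScard
    obtain ⟨v, hv, hmin⟩ := Finset.exists_min_image S (X t) hSne
    have hvV : ∀ c', v ∉ V c' := fun c' hv' => lt_irrefl _ (h.left c' v hv' v hv)
    by_cases hbig : ∃ w ∈ S.erase v, ∃ τ, p - 2 < nl (V (χ v w)) ℓ v w τ
    · obtain ⟨w, hw, τ, hτ⟩ := hbig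
      have hst := step t χ hinj hne h hS hV hv hmin (c := χ v w)
        (L := fun τ => nl (V (χ v w)) ℓ v w τ) (S' := {w})
        (by simpa using Finset.mem_of_mem_erase hw)
        (by
          rw [Finset.mem_singleton]
          exact fun e => (Finset.ne_of_mem_erase hw) e.symm)
        (by simp) (by simp) (by simp)
      refine found_of_label t χ hst (P := P) (by simpa using hS (Finset.mem_of_mem_erase hw)) ?_
        (by omega) (c := χ v w) (v := v) (τ := τ) ?_ ?_ (s := w) (by simp)
      · intro c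
        by_cases e : c = χ v w
        · subst e
          rw [Function.update_self]
          exact Finset.insert_subset (hS hv) (hV _)
        · rw [Function.update_of_ne e]
          exact hV c
      · rw [Function.update_self]; simp
      · rw [Function.update_self]; omega
    · push Not at hbig
      -- pigeonhole
      let f : ℝ × ℝ → Bool × ℕ × ℕ :=
        fun w => (χ v w, nl (V (χ v w)) ℓ v w true, nl (V (χ v w)) ℓ v w false)
      let T : Finset (Bool × ℕ × ℕ) :=
        Finset.univ ×ˢ ((Finset.Icc 1 (p - 2)) ×ˢ (Finset.Icc 1 (p - 2)))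
      have hT : T.card = M := by
        simp only [T, Finset.card_product, Nat.card_Icc, Finset.card_univ, Fintype.card_bool, hM,
          pow_two]
        simp
      have hmaps : ∀ w ∈ S.erase v, f w ∈ T := by
        intro w hw
        have h1 := hbig w hw true
        have h2 := hbig w hw false
        simp only [T, f, Finset.mem_product, Finset.mem_univ, true_and, Finset.mem_Icc]
        refine ⟨⟨?_, h1⟩, ⟨?_, h2⟩⟩ <;> · unfold nl; omega
      have hlt : T.card * ((M + 1) ^ r - 1) < (S.erase v).card := by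
        rw [hT, Finset.card_erase_of_mem hv]
        have h1 : (M + 1) ^ (r + 1) = M * (M + 1) ^ r + (M + 1) ^ r := by ring
        have h2 : M * ((M + 1) ^ r - 1) + M = M * (M + 1) ^ r := by
          rw [Nat.mul_sub_one]
          exact Nat.sub_add_cancel (Nat.le_mul_of_pos_right _ (by omega))
        omega
      obtain ⟨y, hy, hfib⟩ := Finset.exists_lt_card_fiber_of_mul_lt_card_of_maps_to hmaps hlt
      set S' := (S.erase v).filter fun w => f w = y with hS'
      have hS'S : S' ⊆ S := (Finset.filter_subset _ _).trans (Finset.erase_subset _ _)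
      have hfy : ∀ w ∈ S', χ v w = y.1 ∧ nl (V y.1) ℓ v w true = y.2.1 ∧
          nl (V y.1) ℓ v w false = y.2.2 := by
        intro w hw
        have h1 := (Finset.mem_filter.1 hw).2
        have h2 : χ v w = y.1 := by rw [← h1]
        refine ⟨h2, ?_, ?_⟩
        · rw [← h2, ← h1]
        · rw [← h2, ← h1]
      have hy' : (1 ≤ y.2.1 ∧ y.2.1 ≤ p - 2) ∧ (1 ≤ y.2.2 ∧ y.2.2 ≤ p - 2) := by
        simpa [T] using hy
      have hst := step t χ hinj hne h hS hV hv hmin (c := y.1)
        (L := fun τ => if τ then y.2.1 else y.2.2) (S' := S') hS'S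
        (by
          intro hvS
          exact (Finset.ne_of_mem_erase (Finset.mem_filter.1 hvS).1) rfl)
        (by rw [← Finset.card_pos]; omega)
        (fun w hw => (hfy w hw).1)
        (by
          intro w hw τ
          cases τ
          · simpa using (hfy w hw).2.2
          · simpa using (hfy w hw).2.1)
      refine ih _ _ _ hst (hS'S.trans hS) ?_ ?_ ?_ (by omega)
      · intro c
        by_cases e : c = y.1
        · subst e
          rw [Function.update_self]
          exact Finset.insert_subset (hS hv) (hV _)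
        · rw [Function.update_of_ne e]
          exact hV c
      · intro c u hu τ
        have hu' : u = v ∨ u ∈ V c := by
          by_cases e : c = y.1
          · subst e
            rw [Function.update_self, Finset.mem_insert] at hu
            exact hu
          · rw [Function.update_of_ne e] at hu
            exact Or.inr hu
        rcases hu' with rfl | hu'
        · rw [Function.update_self]
          cases τ
          · simpa using hy'.2
          · simpa using hy'.1
        · rw [Function.update_of_ne (by rintro rfl; exact hvV c hu')]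
          exact hlab c u hu' τ
      · have hcase : ∀ b : Bool, (Function.update V b (insert v (V b)) true).card +
            (Function.update V b (insert v (V b)) false).card =
            (V true).card + (V false).card + 1 := by
          intro b
          cases b
          · rw [Function.update_self, Function.update_of_ne (by simp),
              Finset.card_insert_of_notMem (hvV _)]
            omega
          · rw [Function.update_self, Function.update_of_ne (by simp),
              Finset.card_insert_of_notMem (hvV _)]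
            omega
        rw [hcase y.1]
        omega

end Core

/-- the bound for `g p` -/
theorem good {p n : ℕ} (hp : 3 ≤ p) (hn : (2 * (p - 2) ^ 2 + 1) ^ (2 * (p - 2) ^ 2 + 1) ≤ n) :
    Good p n := by
  classical
  intro P hP hgp χ
  obtain ⟨t, ht⟩ := exists_dir P
  have hne : ∀ a ∈ P, ∀ b ∈ P, ∀ c ∈ P, X t a < X t b → X t b < X t c → ori a b c ≠ 0 := by
    intro a ha b hb c hc hab hbc
    have h1 : a ≠ b := by rintro rfl; exact lt_irrefl _ hab
    have h2 : a ≠ c := by rintro rfl; exact lt_irrefl _ (hab.trans hbc)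
    have h3 : b ≠ c := by rintro rfl; exact lt_irrefl _ hbc
    exact ori_ne_zero h1 (hgp a ha b hb c hc h1 h2 h3)
  have hst : St t (fun x y => χ s(x, y)) (fun _ => ∅) (fun _ _ => 1) P :=
    ⟨by simp, by simp, by simp, by simp, by simp⟩
  obtain ⟨Q, hQP, hQ, τ, c, hch, hcol⟩ := main t (fun x y => χ s(x, y)) ht hne hp
    (2 * (p - 2) ^ 2 + 1) (fun _ => ∅) (fun _ _ => 1) P hst (Finset.Subset.refl _)
    (by simp) (by simp) (by simp) (by rw [hP]; exact hn)
  refine ⟨Q, hQP, hQ, convexPos_of_chain
    (fun a ha b hb => ht a (hQP ha) b (hQP hb)) hch, c, ?_⟩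
  intro x hx y hy hxy
  rcases lt_trichotomy (X t x) (X t y) with h | h | h
  · exact hcol x hx y hy h
  · exact absurd (ht x (hQP hx) y (hQP hy) h) hxy
  · have := hcol y hy x hx h
    rwa [Sym2.eq_swap]

theorem good_g {p : ℕ} (hp : 3 ≤ p) : Good p (g p) :=
  Nat.sInf_mem (s := {n | Good p n}) ⟨_, good hp le_rfl⟩

theorem g_le {p : ℕ} (hp : 3 ≤ p) :
    g p ≤ (2 * (p - 2) ^ 2 + 1) ^ (2 * (p - 2) ^ 2 + 1) :=
  Nat.sInf_le (good hp le_rfl)

theorem log_g {p : ℕ} (hp : 3 ≤ p) :
    Real.logb 2 (g p) ≤ 6 * (p : ℝ) ^ 2 * Real.logb 2 p := by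
  have hpr : (3 : ℝ) ≤ p := by exact_mod_cast hp
  have hlog1 : 1 ≤ Real.logb 2 p := by
    rw [Real.le_logb_iff_rpow_le (by norm_num) (by linarith)]
    norm_num
    linarith
  rcases Nat.eq_zero_or_pos (g p) with h0 | hpos
  · rw [h0]
    simp only [Nat.cast_zero, Real.logb_zero]
    positivity
  · have h1 : (g p : ℝ) ≤ (2 * (p : ℝ) ^ 2) ^ (2 * p ^ 2) := by
      have e1 : 2 * (p - 2) ^ 2 + 1 ≤ 2 * p ^ 2 := by
        obtain ⟨q, rfl⟩ : ∃ q, p = q + 2 := ⟨p - 2, by omega⟩
        simp only [Nat.add_sub_cancel]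
        nlinarith
      have e2 : g p ≤ (2 * p ^ 2) ^ (2 * p ^ 2) := by
        refine (g_le hp).trans ?_
        calc (2 * (p - 2) ^ 2 + 1) ^ (2 * (p - 2) ^ 2 + 1)
            ≤ (2 * p ^ 2) ^ (2 * (p - 2) ^ 2 + 1) := Nat.pow_le_pow_left e1 _
          _ ≤ (2 * p ^ 2) ^ (2 * p ^ 2) := Nat.pow_le_pow_right (by positivity) e1
      calc (g p : ℝ) ≤ (((2 * p ^ 2) ^ (2 * p ^ 2) : ℕ) : ℝ) := by exact_mod_cast e2
        _ = _ := by push_cast; rfl
    calc Real.logb 2 (g p) ≤ Real.logb 2 ((2 * (p : ℝ) ^ 2) ^ (2 * p ^ 2)) :=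
          Real.logb_le_logb_of_le (by norm_num) (by exact_mod_cast hpos) h1
      _ = 2 * (p : ℝ) ^ 2 * (1 + 2 * Real.logb 2 p) := by
          rw [Real.logb_pow, Real.logb_mul (by norm_num) (by positivity), Real.logb_pow,
            Real.logb_self_eq_one (by norm_num)]
          push_cast
          ring
      _ ≤ 6 * (p : ℝ) ^ 2 * Real.logb 2 p := by
          have : (0 : ℝ) < (p : ℝ) ^ 2 := by positivity
          nlinarith

/-- For every `p ≥ 3` the number `g p` exists (`Good p (g p)`), and
`g p ≤ (2(p-2)²+1)^(2(p-2)²+1)`; hence `log₂ g(p) ≤ 6 p² log₂ p`. -/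
theorem result : ∀ p : ℕ, 3 ≤ p → Good p (g p) ∧
    g p ≤ (2 * (p - 2) ^ 2 + 1) ^ (2 * (p - 2) ^ 2 + 1) ∧
    Real.logb 2 (g p) ≤ 6 * (p : ℝ) ^ 2 * Real.logb 2 p :=
  fun _ hp => ⟨good_g hp, g_le hp, log_g hp⟩

end Pool.Agent.Results.MP_6c3374_co.QuasiQuadratic
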